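import Pool.Agent.Q149.LatDefs
import Pool.Agent.Q149.LatProof3

set_option autoImplicit false

/-!
MP_f12303_co, question Q1: both lower density bounds hold for minimal subgraphs of the integer
lattice. The definitions are in `Pool.Agent.Q149.LatDefs`.
-/

namespace Pool.Agent.Results.MP_f12303_co.Density

open Q149.Lat

/-- **Lower density bounds for minimal subgraphs.** For every `n ≥ 2` (the problem asks for
`n ≥ 3`) there are positive constants `c₂`, `c₄` depending only on `n` such that for every minimal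
subgraph `M` of the lattice and every `x ∈ M` both bounds hold for all large `r`. More precisely
the volume bound holds for all `r ≥ 0`, and the bound for the boundary holds for every `r ≥ 1` such
that the concentric cube of half the size contains a point outside `M`. -/
theorem result (n : ℕ) (hn : 2 ≤ n) :
    ∃ c₂ : ℝ, 0 < c₂ ∧ ∃ c₄ : ℝ, 0 < c₄ ∧
      ∀ M : Set (Fin n → ℤ), IsMinimalSubgraph M → ∀ x ∈ M,
        (∃ R : ℝ, ∀ r : ℝ, R ≤ r →
          c₂ * r ^ n ≤ ((M ∩ cube x r).ncard : ℝ) ∧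
          c₄ * r ^ (n - 1) ≤ ((vertexBoundary M ∩ cube x r).ncard : ℝ)) ∧
        (∀ r : ℝ, 0 ≤ r → c₂ * r ^ n ≤ ((M ∩ cube x r).ncard : ℝ)) ∧
        (∀ y : Fin n → ℤ, y ∉ M → ∀ r : ℝ, 1 ≤ r → y ∈ cube x (r / 2) →
          c₄ * r ^ (n - 1) ≤ ((vertexBoundary M ∩ cube x r).ncard : ℝ)) := by
  refine ⟨c2 n, c2_pos n, c4 n, c4_pos n (by omega), fun M hM x hx => ⟨?_, ?_, ?_⟩⟩
  · obtain ⟨y, hy⟩ := (Set.ne_univ_iff_exists_notMem M).1 hM.2.1
    refine ⟨max 1 (2 * ∑ i, |(y i : ℝ) - (x i : ℝ)|), fun r hr => ?_⟩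
    have h1 : 1 ≤ r := (le_max_left _ _).trans hr
    have h2 : 2 * ∑ i, |(y i : ℝ) - (x i : ℝ)| ≤ r := (le_max_right _ _).trans hr
    refine ⟨volume_bound hM hn hx r (by linarith), boundary_bound hM hn hx hy r h1 fun i => ?_⟩
    have h3 := Finset.single_le_sum (f := fun i => |(y i : ℝ) - (x i : ℝ)|)
      (fun j _ => abs_nonneg _) (Finset.mem_univ i)
    linarith
  · exact fun r hr => volume_bound hM hn hx r hr
  · exact fun y hy r hr hxy => boundary_bound hM hn hx hy r hr hxy

end Pool.Agent.Results.MP_f12303_co.Density
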